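import Pool.Agent.W998.Route.Numbers

set_option autoImplicit false

/-!
# No online protocol routes short path collections in `O(C + D)` steps with high probability

For every constant `c` and all large `n` the following holds for all `C` and `D` with
`4 c ≤ D ≤ C` and `(4 C) ^ (2 c + 1) ≤ log n` (for instance for the constants `C = D = 4 c`, and for
`C = D` up to a power of `log n`): there is a finite levelled network such that every randomised
online protocol fails on some simple path collection of size `n` with congestion at most `C` and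
dilation `D` to finish within `c (C + D)` steps, with probability at least `1 - exp (-√n)`.
-/

namespace Pool.Agent.Results.MP_7e32c9_lc.NoOptimalOnline

open Pool.Agent.W998.Route MeasureTheory Filter Topology

theorem result (c : ℕ) (hc : 1 ≤ c) (ε α : ℝ) (hε : 0 < ε) (hα : 0 < α) :
    ∃ n₀ : ℕ, ∀ n ≥ n₀, ∀ C D : ℕ, 4 * c ≤ D → D ≤ C →
      (4 * (C : ℝ)) ^ (2 * c + 1) ≤ Real.log n →
      ((max C D : ℕ) : ℝ) < Real.log n ^ (1 + ε) ∧
      ∃ (V : Type) (_ : Fintype V) (G : V → V → Prop) (lev : V → ℕ),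
        (∀ u v, G u v → lev v = lev u + 1) ∧
        ∀ (Ω : Type) (_ : MeasurableSpace Ω) (μ : Measure Ω) (_ : IsProbabilityMeasure μ)
          (R : Ω → Protocol V),
          (∀ (Q : Finset (Packet V)) (T : ℕ), MeasurableSet {ω | Delivered G (R ω) Q T}) →
          ∃ Q : Finset (Packet V), Q.card = n ∧ SimplePaths G Q ∧ CongestionLE Q C ∧
            DilationLE Q D ∧
            (∀ q ∈ Q, q.2.length = D + 1 ∧ ∀ i u, q.2[i]? = some u → lev u = i) ∧
            (n : ℝ) ^ (-α) < μ.real {ω | ¬ Delivered G (R ω) Q (c * (C + D))} ∧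
            1 - Real.exp (-Real.sqrt n) ≤ μ.real {ω | ¬ Delivered G (R ω) Q (c * (C + D))} := by
  have h0 : Tendsto (fun n : ℕ => (n : ℝ) ^ (-α) + Real.exp (-Real.sqrt n)) atTop (𝓝 (0 + 0)) := by
    apply Tendsto.add
    · exact (tendsto_rpow_neg_atTop hα).comp tendsto_natCast_atTop_atTop
    · exact Real.tendsto_exp_neg_atTop_nhds_zero.comp
        (Real.tendsto_sqrt_atTop.comp tendsto_natCast_atTop_atTop)
  obtain ⟨n₀, hn₀⟩ := Filter.eventually_atTop.1
    (h0.eventually_lt_const (by norm_num : (0 : ℝ) + 0 < 1))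
  refine ⟨n₀, fun n hn C D hD hDC hlog => ⟨?_, ?_⟩⟩
  · rw [max_eq_left hDC]
    have hC : (4 : ℝ) ≤ C := by
      have : 4 ≤ C := by omega
      exact_mod_cast this
    have h1 : 4 * (C : ℝ) ≤ Real.log n := by
      refine le_trans ?_ hlog
      exact le_self_pow₀ (by linarith) (by omega)
    have h2 : (1 : ℝ) ≤ Real.log n := by linarith
    calc (C : ℝ) < Real.log n := by linarith
      _ = Real.log n ^ (1 : ℝ) := (Real.rpow_one _).symm
      _ ≤ Real.log n ^ (1 + ε) := Real.rpow_le_rpow_of_exponent_le h2 (by linarith)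
  · have hT : c * (C + D) < 2 * c * (C - 1) + D := by
      obtain ⟨j, rfl⟩ := Nat.exists_eq_add_of_le hDC
      obtain ⟨i, rfl⟩ := Nat.exists_eq_add_of_le hD
      have h1 : 4 * c + i + j - 1 + 1 = 4 * c + i + j := by omega
      have h2 : 2 * c * (4 * c + i + j) = 2 * c * (4 * c + i + j - 1) + 2 * c := by
        calc 2 * c * (4 * c + i + j) = 2 * c * (4 * c + i + j - 1 + 1) := by rw [h1]
          _ = _ := by ring
      have h3 : c * (4 * c + i + j + (4 * c + i)) + c * j = 2 * c * (4 * c + i + j) := by ring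
      have h4 : 0 ≤ c * j := Nat.zero_le _
      omega
    obtain ⟨V, hV, G, lev, hlev, hmain⟩ := lower_bound C (2 * c) D n (by omega) (by omega)
      (by omega) hlog (c * (C + D)) hT
    refine ⟨V, hV, G, lev, hlev, fun Ω mΩ μ hμ R hR => ?_⟩
    obtain ⟨Q, hQn, hQs, hQC, hQD, hQl, hQ⟩ := hmain Ω mΩ μ hμ R hR
    have h5 := hn₀ n hn
    exact ⟨Q, hQn, hQs, hQC, hQD, hQl, by linarith, hQ⟩

end Pool.Agent.Results.MP_7e32c9_lc.NoOptimalOnline
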